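import Pool.Agent.H80.TM.Integral

open Polynomial Finset

namespace Pool.Agent.Results.MP_8fac0f_nt.EveryWordOften

open Pool.Agent.H80.TM

/-- For each degree `d ≥ 2` there is an exponent `γ > 0` such that, for every integer polynomial
`P` of degree `d` with nonnegative values, every binary word `w` (of every length `k`) occurs in
the sequence `t (P 0), t (P 1), t (P 2), ...`, and it does so at least `c * N ^ γ` times below `N`
for all large `N`, with some `c > 0` depending on `P` and `w`. -/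
theorem result (d : ℕ) (hd : 2 ≤ d) :
    ∃ γ : ℝ, 0 < γ ∧ ∀ P : Polynomial ℤ, P.natDegree = d →
      (∀ n : ℕ, 0 ≤ P.eval (n : ℤ)) → ∀ (k : ℕ) (w : Fin k → Fin 2),
        ∃ (c : ℝ) (N₀ : ℕ), 0 < c ∧ ∀ N : ℕ, N₀ ≤ N →
          c * (N : ℝ) ^ γ ≤
            (((Finset.range N).filter fun n : ℕ => ∀ i : Fin k,
              (Nat.digits 2 (P.eval ((n + i : ℕ) : ℤ)).toNat).sum % 2 = (w i : ℕ)).card : ℝ) := by
  set Γ : ℕ := G d (2 ^ Rr d) 0 with hΓ
  refine ⟨1 / ((Γ : ℝ) + 1), by positivity, ?_⟩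
  intro P hdeg hP k w
  obtain ⟨n0, R, hRdeg, hRmap, hRw⟩ := words_int P (by omega) hP k
    (fun i => if h : i < k then (((w ⟨i, h⟩ : Fin 2) : ℕ) : ZMod 2) else 0)
  obtain ⟨C, hC⟩ := many_returns R d (by omega) k
  have hCpos : (0 : ℝ) < 2 * ((C : ℝ) + 1) := by positivity
  refine ⟨(1 / (2 * ((C : ℝ) + 1))) ^ (1 / ((Γ : ℝ) + 1)), 2 * n0 + 2 * (C + 1), by positivity, ?_⟩
  intro N hN
  have hNR : (2 * n0 + 2 * ((C : ℝ) + 1)) ≤ N := by exact_mod_cast hN
  have hn0 : (0 : ℝ) ≤ n0 := by positivity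
  have hN0 : (0 : ℝ) < N := by
    have : (0 : ℝ) ≤ C := by positivity
    linarith
  set q : ℝ := N / (2 * ((C : ℝ) + 1)) with hq
  have hq1 : 1 ≤ q := by
    rw [hq, le_div_iff₀ hCpos]
    linarith
  set a : ℝ := q ^ (1 / ((Γ : ℝ) + 1)) with ha
  have ha1 : 1 ≤ a := Real.one_le_rpow hq1 (by positivity)
  have hapow : a ^ (Γ + 1) = q := by
    rw [ha, ← Real.rpow_natCast, ← Real.rpow_mul (by linarith)]
    have : 1 / ((Γ : ℝ) + 1) * ((Γ + 1 : ℕ) : ℝ) = 1 := by
      push_cast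
      field_simp
    rw [this, Real.rpow_one]
  set X : ℕ := ⌊a⌋₊ with hX
  have hX1 : 1 ≤ X := Nat.one_le_floor_iff _ |>.2 ha1
  have hXa : (X : ℝ) ≤ a := Nat.floor_le (by linarith)
  have haX : a < X + 1 := Nat.lt_floor_add_one a
  obtain ⟨σ, hσ1, hσ2, hσ3⟩ := hC X hX1
  have hbound : ∀ x ≤ X, n0 + σ * x < N := by
    intro x hx
    have h1 : σ * x ≤ C * X ^ (Γ + 1) := by
      calc σ * x ≤ (C * X ^ Γ) * X := Nat.mul_le_mul hσ2 hx
        _ = C * X ^ (Γ + 1) := by rw [pow_succ]; ring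
    have h2 : ((X : ℝ)) ^ (Γ + 1) ≤ q := by
      rw [← hapow]
      exact pow_le_pow_left₀ (by positivity) hXa _
    have h3 : ((σ * x : ℕ) : ℝ) ≤ C * q := by
      calc ((σ * x : ℕ) : ℝ) ≤ ((C * X ^ (Γ + 1) : ℕ) : ℝ) := by exact_mod_cast h1
        _ = C * (X : ℝ) ^ (Γ + 1) := by push_cast; ring
        _ ≤ C * q := by gcongr
    have h4 : (C : ℝ) * q < N / 2 := by
      rw [hq, mul_div_assoc', div_lt_iff₀ hCpos]
      have : (N : ℝ) / 2 * (2 * (C + 1)) = C * N + N := by ring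
      rw [this]
      linarith
    have h5 : (n0 : ℝ) ≤ N / 2 := by
      have : (0 : ℝ) ≤ C := by positivity
      linarith
    have h6 : ((n0 + σ * x : ℕ) : ℝ) < N := by
      push_cast
      push_cast at h3
      linarith
    exact_mod_cast h6
  have hsub : ((Finset.range (X + 1)).image fun x => n0 + σ * x) ⊆
      (Finset.range N).filter fun n : ℕ => ∀ i : Fin k,
        (Nat.digits 2 (P.eval ((n + i : ℕ) : ℤ)).toNat).sum % 2 = (w i : ℕ) := by
    intro n hn
    rw [Finset.mem_image] at hn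
    obtain ⟨x, hx, rfl⟩ := hn
    have hx' : x ≤ X := by
      have := Finset.mem_range.1 hx
      omega
    rw [Finset.mem_filter]
    refine ⟨Finset.mem_range.2 (hbound x hx'), fun i => ?_⟩
    have h1 := eval_hasse_of_map P R n0 hRmap 0 (i + σ * x)
    simp only [hasseDeriv_zero, LinearMap.id_coe, id_eq] at h1
    rw [show n0 + σ * x + (i : ℕ) = n0 + ((i : ℕ) + σ * x) by ring, ← h1, Int.toNat_natCast]
    refine t_mod _ _ ?_
    rw [hσ3 x hx' i i.2, hRw i i.2, dif_pos i.2]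
  have hcard : X + 1 ≤ ((Finset.range N).filter fun n : ℕ => ∀ i : Fin k,
        (Nat.digits 2 (P.eval ((n + i : ℕ) : ℤ)).toNat).sum % 2 = (w i : ℕ)).card := by
    refine le_trans (le_of_eq ?_) (Finset.card_le_card hsub)
    rw [Finset.card_image_of_injective, Finset.card_range]
    intro x x' hxx
    have h1 : σ * x = σ * x' := by
      simp only at hxx
      omega
    exact Nat.eq_of_mul_eq_mul_left (by omega) h1
  calc (1 / (2 * ((C : ℝ) + 1))) ^ (1 / ((Γ : ℝ) + 1)) * (N : ℝ) ^ (1 / ((Γ : ℝ) + 1))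
      = a := by
        rw [ha, hq, ← Real.mul_rpow (by positivity) (by positivity)]
        congr 1
        ring
    _ ≤ ((X + 1 : ℕ) : ℝ) := by push_cast; linarith
    _ ≤ _ := by exact_mod_cast hcard

end Pool.Agent.Results.MP_8fac0f_nt.EveryWordOften
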